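import Pool.Agent.R866.PJ.Main

set_option autoImplicit false

open AlgebraicGeometry CategoryTheory Pool.Agent.Helper922.VS Pool.Agent.R866.PJ

/-- For every field `k` of characteristic `2` there are a smooth projective threefold `X` over `k`,
not isomorphic to projective three-space over `k`, an ample line bundle `L` on `X` and a nonzero
(even nowhere vanishing) morphism from `L` to the tangent bundle of `X`. -/
theorem Pool.Agent.Results.MP_63fcef_ag.QuadricCharTwo.result (k : Type) [Field k] [CharP k 2] :
    ∃ (X : Scheme.{0}) (p : X ⟶ Spec (CommRingCat.of k)) (L : LineSheaf X)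
      (φ : MapToTangent p L),
      IsProjectiveVariety p ∧ SmoothOfRelativeDimension 3 p ∧ L.IsAmple ∧ φ.Nonzero ∧
      φ.NowhereZero ∧ ¬ ∃ e : X ≅ PSpace 3 k, e.hom ≫ PSpace.str 3 k = p :=
  Pool.Agent.R866.PJ.main k
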